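import Mathlib
import Pool.Agent.V11306.CMb
import Pool.Agent.Y155.QT14b

/-! Project IS: descent by two-isogenies, part A (abstract bound, the descent map, the kernel). -/

set_option autoImplicit false

namespace Pool.Agent.L7h56.IS

open WeierstrassCurve WeierstrassCurve.Affine Pool.Agent.V11306.CM

lemma rank_le (A A' : Type) [AddCommGroup A] [AddCommGroup A'] (hA : AddGroup.FG A)
    (θ : A' →+ A) (φ : A →+ A') (h2 : ∀ P, θ (φ P) = P + P) (S S' : Finset ℤ)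
    (α : A → ℤ) (α' : A' → ℤ) (hS : ∀ P, α P ∈ S) (hS' : ∀ R, α' R ∈ S')
    (hα : ∀ P Q, α P = α Q → ∃ R, P = Q + θ R)
    (hα' : ∀ R R', α' R = α' R' → ∃ T, R = R' + φ T) :
    2 ^ Module.finrank ℤ A ≤ S.card * S'.card := by
  classical
  let rep : ℤ → A := fun s => if h : ∃ P, α P = s then h.choose else 0
  let rep' : ℤ → A' := fun s => if h : ∃ P, α' P = s then h.choose else 0
  have hr : ∀ P, α (rep (α P)) = α P := by
    intro P
    have h : ∃ Q, α Q = α P := ⟨P, rfl⟩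
    simp only [rep, dif_pos h]
    exact h.choose_spec
  have hr' : ∀ P, α' (rep' (α' P)) = α' P := by
    intro P
    have h : ∃ Q, α' Q = α' P := ⟨P, rfl⟩
    simp only [rep', dif_pos h]
    exact h.choose_spec
  have := Pool.Agent.Y155.QT14.two_pow_finrank_le A hA
    ((S ×ˢ S').image (fun s => rep s.1 + θ (rep' s.2))) (by
      intro P
      obtain ⟨R, hR⟩ := hα P (rep (α P)) (hr P).symm
      obtain ⟨T, hT⟩ := hα' R (rep' (α' R)) (hr' R).symm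
      refine ⟨rep (α P) + θ (rep' (α' R)), ?_, T, ?_⟩
      · exact Finset.mem_image.mpr ⟨(α P, α' R), Finset.mem_product.mpr ⟨hS P, hS' R⟩, rfl⟩
      · rw [← h2, add_assoc, ← map_add, ← hT, ← hR])
  refine this.trans (Finset.card_image_le.trans ?_)
  rw [Finset.card_product]

variable {K : Type*} [Field K] [DecidableEq K]

/-- the descent map -/
def fx (a b : K) : (E a b).Point → K
  | .zero => 1
  | .some x _ _ => if x = 0 then b else x

lemma fx_zero (a b : K) : fx a b 0 = 1 := rfl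

lemma fx_x0 {a b x y : K} (h : (E a b).Nonsingular x y) (hx : x = 0) :
    fx a b (.some x y h) = b := by
  simp only [fx, if_pos hx]

lemma fx_x {a b x y : K} (h : (E a b).Nonsingular x y) (hx : x ≠ 0) :
    fx a b (.some x y h) = x := by
  simp only [fx, if_neg hx]

lemma fx_ne {a b : K} (hb : b ≠ 0) (P : (E a b).Point) : fx a b P ≠ 0 := by
  rcases P with _ | ⟨x, y, h⟩
  · exact one_ne_zero
  · by_cases hx : x = 0
    · rwa [fx_x0 h hx]
    · rwa [fx_x h hx]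

lemma fx_neg (a b : K) (P : (E a b).Point) : fx a b (-P) = fx a b P := by
  rcases P with _ | ⟨x, y, h⟩
  · rfl
  · rw [Point.neg_some]
    rfl

omit [DecidableEq K] in
lemma alg {b x₁ x₂ x₃ l v : K} [DecidableEq K] (hb : b ≠ 0)
    (s2 : x₁ * x₂ + x₁ * x₃ + x₂ * x₃ = b - 2 * l * v) (s3 : x₁ * x₂ * x₃ = v ^ 2) :
    IsSquare ((if x₁ = 0 then b else x₁) * (if x₂ = 0 then b else x₂) *
      (if x₃ = 0 then b else x₃)) := by
  by_cases hv : v = 0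
  · rw [hv] at s2 s3
    by_cases hx1 : x₁ = 0
    · rw [hx1] at s2
      have h23 : x₂ * x₃ = b := by linear_combination s2
      have hx2 : x₂ ≠ 0 := by rintro rfl; exact hb (by rw [← h23]; ring)
      have hx3 : x₃ ≠ 0 := by rintro rfl; exact hb (by rw [← h23]; ring)
      rw [if_pos hx1, if_neg hx2, if_neg hx3]
      exact ⟨b, by linear_combination b * h23⟩
    by_cases hx2 : x₂ = 0
    · rw [hx2] at s2
      have h23 : x₁ * x₃ = b := by linear_combination s2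
      have hx3 : x₃ ≠ 0 := by rintro rfl; exact hb (by rw [← h23]; ring)
      rw [if_neg hx1, if_pos hx2, if_neg hx3]
      exact ⟨b, by linear_combination b * h23⟩
    · have hx3 : x₃ = 0 := by
        have : x₁ * x₂ * x₃ = 0 := by rw [s3]; ring
        rcases mul_eq_zero.mp this with h | h
        · exact absurd h (mul_ne_zero hx1 hx2)
        · exact h
      rw [hx3] at s2
      have h23 : x₁ * x₂ = b := by linear_combination s2
      rw [if_neg hx1, if_neg hx2, if_pos hx3]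
      exact ⟨b, by linear_combination b * h23⟩
  · have hne : x₁ * x₂ * x₃ ≠ 0 := by rw [s3]; exact pow_ne_zero 2 hv
    have hx3 : x₃ ≠ 0 := right_ne_zero_of_mul hne
    have hx2 : x₂ ≠ 0 := right_ne_zero_of_mul (left_ne_zero_of_mul hne)
    have hx1 : x₁ ≠ 0 := left_ne_zero_of_mul (left_ne_zero_of_mul hne)
    rw [if_neg hx1, if_neg hx2, if_neg hx3, s3]
    exact ⟨v, by ring⟩

lemma fx_add {a b : K} (hb : b ≠ 0) (P Q : (E a b).Point) :
    IsSquare (fx a b P * fx a b Q * fx a b (P + Q)) := by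
  rcases P with _ | ⟨x₁, y₁, h₁⟩
  · rw [← Point.zero_def, zero_add, fx_zero, one_mul]
    exact ⟨_, rfl⟩
  rcases Q with _ | ⟨x₂, y₂, h₂⟩
  · rw [← Point.zero_def, add_zero, fx_zero, mul_one]
    exact ⟨_, rfl⟩
  by_cases hxy : x₁ = x₂ ∧ y₁ = (E a b).negY x₂ y₂
  · have e : Point.some _ _ h₁ = -Point.some _ _ h₂ := by
      rw [Point.neg_some]
      simp only [Point.some.injEq]
      exact hxy
    rw [e, neg_add_cancel, fx_zero, mul_one, fx_neg]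
    exact ⟨_, rfl⟩
  · obtain ⟨x₃, y₃, l, v, h₃, e, hc⟩ := vieta h₁ h₂ hxy
    rw [e]
    exact alg hb hc.s2 hc.s3

omit [DecidableEq K] in
lemma sq_of_mul {x y : K} (hx : x ≠ 0) (h : IsSquare (x * y)) (hx2 : IsSquare x) : IsSquare y := by
  obtain ⟨r, hr⟩ := h
  obtain ⟨s, hs⟩ := hx2
  have hs0 : s ≠ 0 := by rintro rfl; exact hx (by rw [hs]; ring)
  refine ⟨r / s, ?_⟩
  rw [div_mul_div_comm, ← hr, ← hs]
  field_simp

lemma fx_sub {a b : K} (hb : b ≠ 0) (P Q : (E a b).Point) (h : IsSquare (fx a b P * fx a b Q)) :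
    IsSquare (fx a b (P - Q)) := by
  have h1 := fx_add hb P (-Q)
  rw [fx_neg, ← sub_eq_add_neg] at h1
  exact sq_of_mul (mul_ne_zero (fx_ne hb P) (fx_ne hb Q)) h1 h

section psi

variable {a b a' b' u : K}

/-- the two-isogeny followed by a scaling -/
def psi (hb0 : b ≠ 0) (hΔ1 : (E (-2 * a) (a ^ 2 - 4 * b)).Δ ≠ 0) (hu : u ^ 2 ≠ 0)
    (h1 : a' = u ^ 2 * (-2 * a)) (h2 : b' = (u ^ 2) ^ 2 * (a ^ 2 - 4 * b))
    (hΔ' : (E a' b').Δ ≠ 0) : (E a b).Point →+ (E a' b').Point :=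
  (affHom (a := -2 * a) (b := a ^ 2 - 4 * b) (a' := a') (b' := b') (α := u ^ 2) (β := 0)
    (γ := u ^ 3) (by ring) (by rw [h1]; ring) (by rw [h2]; ring) (by ring) hΔ' hu).comp
  (phiHom (a := a) (b := b) rfl rfl hΔ1 hb0)

variable (hb0 : b ≠ 0) (hΔ1 : (E (-2 * a) (a ^ 2 - 4 * b)).Δ ≠ 0) (hu : u ^ 2 ≠ 0)
    (h1 : a' = u ^ 2 * (-2 * a)) (h2 : b' = (u ^ 2) ^ 2 * (a ^ 2 - 4 * b))
    (hΔ' : (E a' b').Δ ≠ 0)

lemma psi_apply (P : (E a b).Point) : psi hb0 hΔ1 hu h1 h2 hΔ' P =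
    aff (-2 * a) (a ^ 2 - 4 * b) a' b' (u ^ 2) 0 (u ^ 3) (by ring) (by rw [h1]; ring)
      (by rw [h2]; ring) (by ring) hΔ' (phi a b (-2 * a) (a ^ 2 - 4 * b) rfl rfl hΔ1 P) := rfl

lemma psi_zero {x y : K} (h : (E a b).Nonsingular x y) (hx : x = 0) :
    psi hb0 hΔ1 hu h1 h2 hΔ' (.some x y h) = 0 := by
  have e : phi a b (-2 * a) (a ^ 2 - 4 * b) rfl rfl hΔ1 (.some x y h) = 0 :=
    phi_of_zero rfl rfl hΔ1 h hx
  rw [psi_apply, e]
  rfl

lemma psi_some {x y : K} (h : (E a b).Nonsingular x y) (hx : x ≠ 0) :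
    ∃ h' : (E a' b').Nonsingular (u ^ 2 * (y ^ 2 / x ^ 2)) (u ^ 3 * (y * (x ^ 2 - b) / x ^ 2)),
    psi hb0 hΔ1 hu h1 h2 hΔ' (.some x y h) = .some _ _ h' := by
  have e := phi_of_ne (a := a) (b := b) (a' := -2 * a) (b' := a ^ 2 - 4 * b) rfl rfl hΔ1 h hx
  have key : ∃ h' : (E a' b').Nonsingular (u ^ 2 * (y ^ 2 / x ^ 2) + 0)
      (u ^ 3 * (y * (x ^ 2 - b) / x ^ 2)),
    psi hb0 hΔ1 hu h1 h2 hΔ' (.some x y h) = .some _ _ h' := by
    rw [psi_apply, e]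
    exact ⟨_, rfl⟩
  obtain ⟨h', hh⟩ := key
  rw [hh]
  simp only [Point.some.injEq]
  have hx0 : u ^ 2 * (y ^ 2 / x ^ 2) + 0 = u ^ 2 * (y ^ 2 / x ^ 2) := add_zero _
  exact ⟨hx0 ▸ h', hx0, trivial⟩

omit [DecidableEq K] in
lemma ne_zero_of_delta {a b : K} (h : (E a b).Δ ≠ 0) : b ≠ 0 := by
  rintro rfl
  apply h
  rw [E_delta]; ring

/-- the points with square `x` are in the image -/
lemma psi_ker (h20 : (2 : K) ≠ 0) (R : (E a' b').Point) (hR : IsSquare (fx a' b' R)) :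
    ∃ P, psi hb0 hΔ1 hu h1 h2 hΔ' P = R := by
  have hu' : u ≠ 0 := fun h => hu (by rw [h]; ring)
  have hc0 : a ^ 2 - 4 * b ≠ 0 := ne_zero_of_delta hΔ1
  have hΔ : (E a b).Δ ≠ 0 := by
    rw [E_delta]
    refine mul_ne_zero (mul_ne_zero ?_ (pow_ne_zero 2 hb0)) hc0
    rw [show (16 : K) = 2 ^ 4 by norm_num]
    exact pow_ne_zero 4 h20
  rcases R with _ | ⟨X, Y, h⟩
  · exact ⟨0, map_zero _⟩
  have he := (E_eq a' b' X Y).mp h.1
  by_cases hX : X = 0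
  · rw [fx_x0 h hX] at hR
    obtain ⟨w, hw⟩ := hR
    have hY : Y = 0 := by
      rw [hX] at he
      have : Y ^ 2 = 0 := by rw [he]; ring
      exact pow_eq_zero_iff (two_ne_zero) |>.mp this
    obtain ⟨r, hr⟩ : ∃ r, u ^ 2 * r = w := ⟨w / u ^ 2, by field_simp⟩
    have hr2 : r ^ 2 = a ^ 2 - 4 * b := by
      have : (u ^ 2) ^ 2 * r ^ 2 = (u ^ 2) ^ 2 * (a ^ 2 - 4 * b) := by
        rw [← h2, hw, ← hr]; ring
      exact mul_left_cancel₀ (pow_ne_zero 2 hu) this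
    obtain ⟨x, hx⟩ : ∃ x, 2 * x = r - a := ⟨(r - a) / 2, by field_simp⟩
    have hxe : x ^ 2 + a * x + b = 0 := by
      have h4 : (4 : K) ≠ 0 := by rw [show (4 : K) = 2 ^ 2 by norm_num]; exact pow_ne_zero 2 h20
      apply mul_left_cancel₀ h4
      linear_combination (2 * x + r + a) * hx + hr2
    have hx0 : x ≠ 0 := by
      rintro rfl
      apply hb0
      linear_combination hxe
    have hns : (E a b).Nonsingular x 0 := E_ns hΔ (by linear_combination (-x) * hxe)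
    obtain ⟨h', hh⟩ := psi_some hb0 hΔ1 hu h1 h2 hΔ' hns hx0
    refine ⟨.some x 0 hns, ?_⟩
    rw [hh]
    simp only [Point.some.injEq]
    rw [hX, hY]
    constructor <;> ring
  · rw [fx_x h hX] at hR
    obtain ⟨W, hW⟩ := hR
    have hW0 : W ≠ 0 := by rintro rfl; exact hX (by rw [hW]; ring)
    obtain ⟨Z, hZ⟩ : ∃ Z, W * Z = Y := ⟨Y / W, by field_simp⟩
    obtain ⟨x, hx⟩ : ∃ x, 2 * u ^ 2 * x = W ^ 2 - a * u ^ 2 + Z :=
      ⟨(W ^ 2 - a * u ^ 2 + Z) / (2 * u ^ 2), by field_simp⟩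
    have hZ2 : Z ^ 2 = W ^ 4 + a' * W ^ 2 + b' := by
      have : W ^ 2 * Z ^ 2 = W ^ 2 * (W ^ 4 + a' * W ^ 2 + b') := by
        rw [← mul_pow, hZ, he, hW]; ring
      exact mul_left_cancel₀ (pow_ne_zero 2 hW0) this
    -- the equation `u ^ 2 (x ^ 2 + a x + b) = W ^ 2 x`
    have hxe : u ^ 2 * (x ^ 2 + a * x + b) = W ^ 2 * x := by
      have h4 : (4 : K) * u ^ 2 ≠ 0 := by
        rw [show (4 : K) = 2 ^ 2 by norm_num]; exact mul_ne_zero (pow_ne_zero 2 h20) hu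
      apply mul_left_cancel₀ h4
      rw [h1, h2] at hZ2
      linear_combination (2 * u ^ 2 * x + W ^ 2 - a * u ^ 2 + Z + 2 * a * u ^ 2 - 2 * W ^ 2) * hx + hZ2
    have hx0 : x ≠ 0 := by
      rintro rfl
      apply hb0
      have : u ^ 2 * b = 0 := by linear_combination hxe
      exact (mul_eq_zero.mp this).resolve_left hu
    obtain ⟨y, hy⟩ : ∃ y, u * y = W * x := ⟨W * x / u, by field_simp⟩
    have hye : y ^ 2 = x ^ 3 + a * x ^ 2 + b * x := by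
      apply mul_left_cancel₀ hu
      linear_combination (u * y + W * x) * hy - x * hxe
    have hns : (E a b).Nonsingular x y := E_ns hΔ hye
    obtain ⟨h', hh⟩ := psi_some hb0 hΔ1 hu h1 h2 hΔ' hns hx0
    refine ⟨.some x y hns, ?_⟩
    rw [hh]
    simp only [Point.some.injEq]
    have hx2 : x ^ 2 ≠ 0 := pow_ne_zero 2 hx0
    have e1 : u ^ 2 * (y ^ 2 / x ^ 2) = X := by
      rw [hW, ← mul_div_assoc, div_eq_iff hx2]
      linear_combination (u * y + W * x) * hy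
    refine ⟨e1, ?_⟩
    rw [← mul_div_assoc, div_eq_iff hx2, ← hZ]
    -- `u ^ 3 y (x ^ 2 - b) = W Z x ^ 2`, `u y = W x`, `u ^ 2 (x ^ 2 - b) = Z x`
    have e2 : u ^ 2 * (x ^ 2 - b) = Z * x := by
      linear_combination x * hx - hxe
    linear_combination u ^ 2 * (x ^ 2 - b) * hy + W * x * e2

end psi

/-- the composition of the two isogenies is multiplication by two -/
lemma psi_psi {a b : K} (h20 : (2 : K) ≠ 0) (hb0 : b ≠ 0) (hc0 : a ^ 2 - 4 * b ≠ 0)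
    (hΔ : (E a b).Δ ≠ 0)
    (hΔ1 : (E (-2 * a) (a ^ 2 - 4 * b)).Δ ≠ 0)
    (hΔ2 : (E (-2 * (-2 * a)) ((-2 * a) ^ 2 - 4 * (a ^ 2 - 4 * b))).Δ ≠ 0)
    (v1 : (1 : K) ^ 2 ≠ 0) (v2 : (1 / 2 : K) ^ 2 ≠ 0)
    (w1 : (-2 * a) = (1 : K) ^ 2 * (-2 * a))
    (w2 : (a ^ 2 - 4 * b) = ((1 : K) ^ 2) ^ 2 * (a ^ 2 - 4 * b))
    (w3 : a = (1 / 2 : K) ^ 2 * (-2 * (-2 * a)))
    (w4 : b = ((1 / 2 : K) ^ 2) ^ 2 * ((-2 * a) ^ 2 - 4 * (a ^ 2 - 4 * b)))
    (P : (E a b).Point) :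
    psi (u := 1 / 2) (a := -2 * a) (b := a ^ 2 - 4 * b) (a' := a) (b' := b) hc0 hΔ2 v2 w3 w4 hΔ
      (psi (u := 1) (a := a) (b := b) (a' := -2 * a) (b' := a ^ 2 - 4 * b) hb0 hΔ1 v1 w1 w2 hΔ1 P) =
      P + P := by
  rcases P with _ | ⟨x, y, h⟩
  · rw [← Point.zero_def, map_zero, map_zero, add_zero]
  have he := (E_eq a b x y).mp h.1
  by_cases hx : x = 0
  · rw [psi_zero hb0 hΔ1 v1 w1 w2 hΔ1 h hx, map_zero]
    have hy : y = 0 := by
      rw [hx] at he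
      have : y ^ 2 = 0 := by rw [he]; ring
      exact pow_eq_zero_iff (two_ne_zero) |>.mp this
    symm
    apply Point.add_of_Y_eq rfl
    rw [E_negY, hy, neg_zero]
  obtain ⟨h', hh⟩ := psi_some hb0 hΔ1 v1 w1 w2 hΔ1 h hx
  rw [hh]
  by_cases hy : y = 0
  · rw [psi_zero hc0 hΔ2 v2 w3 w4 hΔ h' (by rw [hy]; ring)]
    symm
    apply Point.add_of_Y_eq rfl
    rw [E_negY, hy, neg_zero]
  have hX : (1 : K) ^ 2 * (y ^ 2 / x ^ 2) ≠ 0 :=
    mul_ne_zero v1 (div_ne_zero (pow_ne_zero 2 hy) (pow_ne_zero 2 hx))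
  obtain ⟨h'', hh2⟩ := psi_some hc0 hΔ2 v2 w3 w4 hΔ h' hX
  rw [hh2]
  symm
  have hmx : ∃ m, m * x = y := ⟨y / x, div_mul_cancel₀ y hx⟩
  obtain ⟨m, hm⟩ := hmx
  obtain ⟨q, hq⟩ : ∃ q, q * x = b := ⟨b / x, div_mul_cancel₀ b hx⟩
  have hm0 : m ≠ 0 := by rintro rfl; exact hy (by rw [← hm]; ring)
  obtain ⟨t, ht⟩ : ∃ t, 2 * m * t = x - q := ⟨(x - q) / (2 * m), by field_simp⟩
  have hx2 : x ^ 2 ≠ 0 := pow_ne_zero 2 hx
  have hmm : m ^ 2 = x + a + q := by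
    apply mul_right_cancel₀ hx2
    linear_combination (m * x + y) * hm + he - x * hq
  have eX : (1 : K) ^ 2 * (y ^ 2 / x ^ 2) = m ^ 2 := by
    rw [one_pow, one_mul, div_eq_iff hx2]
    linear_combination (-(m * x + y)) * hm
  have eY : (1 : K) ^ 3 * (y * (x ^ 2 - b) / x ^ 2) = 2 * m ^ 2 * t := by
    rw [one_pow, one_mul, div_eq_iff hx2]
    linear_combination (-(x ^ 2 - b)) * hm + m * x * hq - m * x ^ 2 * ht
  have hm2 : (m ^ 2) ^ 2 ≠ 0 := pow_ne_zero 2 (pow_ne_zero 2 hm0)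
  have e1 : (1 / 2 : K) ^ 2 * (((1 : K) ^ 3 * (y * (x ^ 2 - b) / x ^ 2)) ^ 2 /
      ((1 : K) ^ 2 * (y ^ 2 / x ^ 2)) ^ 2) = t ^ 2 := by
    rw [eX, eY]
    field_simp
  have e2 : (1 / 2 : K) ^ 3 * (((1 : K) ^ 3 * (y * (x ^ 2 - b) / x ^ 2)) *
      (((1 : K) ^ 2 * (y ^ 2 / x ^ 2)) ^ 2 - (a ^ 2 - 4 * b)) /
      ((1 : K) ^ 2 * (y ^ 2 / x ^ 2)) ^ 2) = t / 2 * (m ^ 2 - a - 2 * t ^ 2) := by
    rw [eX, eY]
    have e3 : (m ^ 2) ^ 2 - (a ^ 2 - 4 * b) = m ^ 2 * (2 * (m ^ 2 - a - 2 * t ^ 2)) := by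
      linear_combination (-(m ^ 2 + x - a + q)) * hmm + (2 * m * t + x - q) * ht - 4 * hq
    rw [e3]
    field_simp
  apply col_add (l := m + t) (v := -(x * t))
  refine ⟨by linear_combination -hm, by linear_combination -hm, ?_, ?_, ?_, ?_⟩
  · rw [e1, e2]
    have h2 : (2 : K) * (t / 2) = t := by field_simp
    apply mul_left_cancel₀ h20
    linear_combination (-(m ^ 2 - a - 2 * t ^ 2)) * h2 - t * hmm - t * ht
  · rw [e1]
    linear_combination -hmm - ht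
  · rw [e1]
    linear_combination hq - x * ht
  · rw [e1]
    ring

end Pool.Agent.L7h56.IS
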