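import Mathlib
import Pool.Agent.L7h56.IS.DesA

/-! Project IS: descent by two-isogenies, part B (the classes). -/

set_option autoImplicit false

namespace Pool.Agent.L7h56.IS

open WeierstrassCurve WeierstrassCurve.Affine Pool.Agent.V11306.CM

/-- every nonzero integer is a squarefree integer times a square -/
lemma exists_sqfree (r : ℤ) (hr : r ≠ 0) : ∃ d M : ℤ, Squarefree d ∧ r = d * M ^ 2 ∧ M ≠ 0 := by
  obtain ⟨a, b, h, ha⟩ := Nat.sq_mul_squarefree r.natAbs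
  have hb : b ≠ 0 := by
    rintro rfl
    have : r.natAbs = 0 := by rw [← h]; ring
    exact hr (Int.natAbs_eq_zero.mp this)
  refine ⟨r.sign * a, b, ?_, ?_, by exact_mod_cast hb⟩
  · rw [← Int.squarefree_natAbs, Int.natAbs_mul, Int.natAbs_sign_of_ne_zero hr, one_mul, Int.natAbs_natCast]
    exact ha
  · have h1 : ((b ^ 2 * a : ℕ) : ℤ) = (r.natAbs : ℤ) := by rw [h]
    push_cast at h1
    calc r = r.sign * |r| := (Int.sign_mul_abs r).symm
      _ = r.sign * ((b : ℤ) ^ 2 * a) := by rw [h1]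
      _ = r.sign * a * (b : ℤ) ^ 2 := by ring

lemma jac_of_sq (p : ℕ) (hp : p.Prime) (d z w : ℤ) (hz : ¬ (p : ℤ) ∣ z)
    (h : (p : ℤ) ∣ d * z ^ 2 - w ^ 2) (hd : ¬ (p : ℤ) ∣ d) : jacobiSym d p = 1 := by
  have : Fact p.Prime := ⟨hp⟩
  rw [← jacobiSym.legendreSym.to_jacobiSym]
  have hd0 : (d : ZMod p) ≠ 0 := by rwa [Ne, ZMod.intCast_zmod_eq_zero_iff_dvd]
  have hz0 : (z : ZMod p) ≠ 0 := by rwa [Ne, ZMod.intCast_zmod_eq_zero_iff_dvd]
  rw [legendreSym.eq_one_iff p hd0]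
  have h1 : (d : ZMod p) * (z : ZMod p) ^ 2 - (w : ZMod p) ^ 2 = 0 := by
    have := (ZMod.intCast_zmod_eq_zero_iff_dvd _ p).mpr h
    push_cast at this
    exact this
  refine ⟨w / z, ?_⟩
  field_simp
  linear_combination h1

/-- the integral form: `r (r² + a r s + b s²) s = w²`, `r, s` coprime, `s > 0` -/
lemma cls_int (a b r s w : ℤ) (hr : r ≠ 0) (hs : 0 < s) (hrs : IsCoprime r s)
    (h : w ^ 2 = s * (r * (r ^ 2 + a * r * s + b * s ^ 2))) :
    ∃ d M : ℤ, Squarefree d ∧ d ∣ b ∧ r * s = d * M ^ 2 ∧ M ≠ 0 ∧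
      ∀ p : ℕ, p.Prime → Odd p → (p : ℤ) ∣ a ^ 2 - 4 * b → ¬ (p : ℤ) ^ 2 ∣ a ^ 2 - 4 * b →
        ¬ (p : ℤ) ∣ b → jacobiSym d p = 1 := by
  have hcop : IsCoprime s (r * (r ^ 2 + a * r * s + b * s ^ 2)) := by
    apply IsCoprime.mul_right hrs.symm
    have h1 : IsCoprime s (r ^ 2) := hrs.symm.pow_right
    have h2 : r ^ 2 + a * r * s + b * s ^ 2 = r ^ 2 + s * (a * r + b * s) := by ring
    rw [h2]
    exact h1.add_mul_left_right _
  -- `s` is a square
  obtain ⟨e, he⟩ := Int.sq_of_isCoprime hcop (c := w) (by rw [h])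
  have hse : s = e ^ 2 := by
    rcases he with he | he
    · exact he
    · exfalso; have := sq_nonneg e; omega
  have he0 : e ≠ 0 := by rintro rfl; rw [hse] at hs; simp at hs
  -- the second factor is a square too
  obtain ⟨v, hv⟩ := Int.sq_of_isCoprime hcop.symm (c := w) (by rw [h]; ring)
  have hv' : r * (r ^ 2 + a * r * s + b * s ^ 2) = v ^ 2 := by
    rcases hv with hv | hv
    · exact hv
    · have h3 : 0 ≤ s * (r * (r ^ 2 + a * r * s + b * s ^ 2)) := by rw [← h]; positivity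
      have h4 : 0 ≤ r * (r ^ 2 + a * r * s + b * s ^ 2) := nonneg_of_mul_nonneg_right h3 hs
      have h5 : v ^ 2 = 0 := by
        have := sq_nonneg v
        rw [hv] at h4; omega
      rw [hv, h5]; simp
  obtain ⟨d, M, hd, hrd, hM⟩ := exists_sqfree r hr
  have hd0 : d ≠ 0 := hd.ne_zero
  -- `v = M v₁`
  have hMv : M ∣ v := by
    rw [← Int.pow_dvd_pow_iff (n := 2) (by norm_num)]
    rw [← hv', hrd]
    exact ⟨d * ((d * M ^ 2) ^ 2 + a * (d * M ^ 2) * s + b * s ^ 2), by ring⟩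
  obtain ⟨v₁, rfl⟩ := hMv
  have h6 : d * (r ^ 2 + a * r * s + b * s ^ 2) = v₁ ^ 2 := by
    have : M ^ 2 * (d * (r ^ 2 + a * r * s + b * s ^ 2)) = M ^ 2 * v₁ ^ 2 := by
      have h7 : M ^ 2 * (d * (r ^ 2 + a * r * s + b * s ^ 2)) =
        (d * M ^ 2) * (r ^ 2 + a * r * s + b * s ^ 2) := by ring
      rw [h7, ← hrd, hv']; ring
    exact mul_left_cancel₀ (pow_ne_zero 2 hM) this
  have hdv : d ∣ v₁ := (hd.dvd_pow_iff_dvd two_ne_zero).mp ⟨_, h6.symm⟩
  obtain ⟨N, rfl⟩ := hdv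
  have h8 : r ^ 2 + a * r * s + b * s ^ 2 = d * N ^ 2 := by
    have : d * (r ^ 2 + a * r * s + b * s ^ 2) = d * (d * N ^ 2) := by rw [h6]; ring
    exact mul_left_cancel₀ hd0 this
  have hdr : d ∣ r := ⟨M ^ 2, hrd⟩
  have hdb : d ∣ b := by
    have h9 : d ∣ b * s ^ 2 := by
      have : b * s ^ 2 = d * N ^ 2 - r * (r + a * s) := by rw [← h8]; ring
      rw [this]
      exact dvd_sub (Dvd.intro _ rfl) (hdr.mul_right _)
    have h10 : IsCoprime d (s ^ 2) := (hrs.of_isCoprime_of_dvd_left hdr).pow_right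
    exact h10.dvd_of_dvd_mul_right h9
  refine ⟨d, M * e, hd, hdb, ?_, mul_ne_zero hM he0, ?_⟩
  · rw [hrd, hse]; ring
  · intro p hp hodd hpc hpc2 hpb
    have hpP : Prime (p : ℤ) := Nat.prime_iff_prime_int.mp hp
    have hp2 : ¬ (p : ℤ) ∣ 2 := by
      intro h
      have h1 : p ∣ 2 := by exact_mod_cast h
      have := (Nat.prime_dvd_prime_iff_eq hp Nat.prime_two).mp h1
      rw [this] at hodd
      exact absurd hodd (by decide)
    have hpd : ¬ (p : ℤ) ∣ d := fun h => hpb (h.trans hdb)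
    have key : 4 * (d * N ^ 2) = (2 * r + a * s) ^ 2 - (a ^ 2 - 4 * b) * s ^ 2 := by
      rw [← h8]; ring
    have hpN : ¬ (p : ℤ) ∣ N := by
      intro hN
      have h1 : (p : ℤ) ∣ 2 * r + a * s := by
        apply hpP.dvd_of_dvd_pow (n := 2)
        have : (2 * r + a * s) ^ 2 = 4 * d * N * N + (a ^ 2 - 4 * b) * s ^ 2 := by
          linear_combination -key
        rw [this]
        exact dvd_add (hN.mul_left _) (hpc.mul_right _)
      have h2 : (p : ℤ) ^ 2 ∣ (a ^ 2 - 4 * b) * s ^ 2 := by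
        have : (a ^ 2 - 4 * b) * s ^ 2 = (2 * r + a * s) ^ 2 - 4 * d * N ^ 2 := by
          linear_combination key
        rw [this]
        exact dvd_sub (pow_dvd_pow_of_dvd h1 2) ((pow_dvd_pow_of_dvd hN 2).mul_left _)
      have h3 : (p : ℤ) ∣ s := by
        by_contra hps
        apply hpc2
        have h4 : IsCoprime ((p : ℤ) ^ 2) (s ^ 2) :=
          ((Prime.coprime_iff_not_dvd hpP).mpr hps).pow
        exact h4.dvd_of_dvd_mul_right h2
      have h4 : (p : ℤ) ∣ 2 * r := by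
        have : 2 * r = (2 * r + a * s) - a * s := by ring
        rw [this]
        exact dvd_sub h1 (h3.mul_left _)
      rcases hpP.dvd_or_dvd h4 with h5 | h5
      · exact hp2 h5
      · exact hpP.not_isUnit (hrs.isUnit_of_dvd' h5 h3)
    apply jac_of_sq p hp d (2 * N) (2 * r + a * s) (hpP.not_dvd_mul hp2 hpN) ?_ hpd
    have : d * (2 * N) ^ 2 - (2 * r + a * s) ^ 2 = -((a ^ 2 - 4 * b) * s ^ 2) := by
      linear_combination key
    rw [this]
    exact (hpc.mul_right _).neg_right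

/-- the class of a point -/
lemma exists_cls (a b : ℤ) (hb : b ≠ 0) (P : (E (a : ℚ) (b : ℚ)).Point) :
    ∃ d : ℤ, Squarefree d ∧ d ∣ b ∧ IsSquare ((d : ℚ) * fx (a : ℚ) (b : ℚ) P) ∧
      ∀ p : ℕ, p.Prime → Odd p → (p : ℤ) ∣ a ^ 2 - 4 * b → ¬ (p : ℤ) ^ 2 ∣ a ^ 2 - 4 * b →
        ¬ (p : ℤ) ∣ b → jacobiSym d p = 1 := by
  rcases P with _ | ⟨x, y, h⟩
  · refine ⟨1, squarefree_one, one_dvd _, ⟨1, ?_⟩, ?_⟩
    · rw [← Point.zero_def, fx_zero]; simp
    · intro p _ _ _ _ _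
      exact jacobiSym.one_left p
  by_cases hx : x = 0
  · rw [fx_x0 h hx]
    obtain ⟨d, M, hd, hbd, hM⟩ := exists_sqfree b hb
    refine ⟨d, hd, ⟨_, hbd⟩, ⟨(d * M : ℚ), ?_⟩, ?_⟩
    · rw [hbd]; push_cast; ring
    · intro p hp hodd hpc _ hpb
      have hpP : Prime (p : ℤ) := Nat.prime_iff_prime_int.mp hp
      have hp2 : ¬ (p : ℤ) ∣ 2 := by
        intro h
        have h1 : p ∣ 2 := by exact_mod_cast h
        have := (Nat.prime_dvd_prime_iff_eq hp Nat.prime_two).mp h1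
        rw [this] at hodd
        exact absurd hodd (by decide)
      have hpM : ¬ (p : ℤ) ∣ M := by
        intro h
        apply hpb
        rw [hbd]
        exact (h.pow two_ne_zero).mul_left _
      have hpd : ¬ (p : ℤ) ∣ d := fun h => hpb (h.trans ⟨_, hbd⟩)
      apply jac_of_sq p hp d (2 * M) a (hpP.not_dvd_mul hp2 hpM) ?_ hpd
      have : d * (2 * M) ^ 2 - a ^ 2 = -(a ^ 2 - 4 * b) := by rw [hbd]; ring
      rw [this]
      exact hpc.neg_right
  · have he := (E_eq (a : ℚ) (b : ℚ) x y).mp h.1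
    set r : ℤ := x.num with hr
    set s : ℤ := (x.den : ℤ) with hs
    have hs0 : 0 < s := by rw [hs]; exact_mod_cast x.pos
    have hsq : (s : ℚ) ≠ 0 := by exact_mod_cast hs0.ne'
    have hxr : x * s = r := by rw [hr, hs]; exact_mod_cast Rat.mul_den_eq_num x
    have hr0 : r ≠ 0 := Rat.num_ne_zero.mpr hx
    have hcop : IsCoprime r s := by
      rw [hr, hs, Int.isCoprime_iff_gcd_eq_one]
      exact x.reduced
    have hw : (y * s ^ 2) ^ 2 = ((s * (r * (r ^ 2 + a * r * s + b * s ^ 2)) : ℤ) : ℚ) := by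
      push_cast
      rw [← hxr]
      linear_combination (s : ℚ) ^ 4 * he
    obtain ⟨w, hw'⟩ : ∃ w : ℤ, w ^ 2 = s * (r * (r ^ 2 + a * r * s + b * s ^ 2)) := by
      have h1 : IsSquare (((s * (r * (r ^ 2 + a * r * s + b * s ^ 2)) : ℤ) : ℚ)) :=
        ⟨y * s ^ 2, by rw [← hw]; ring⟩
      rw [Rat.isSquare_intCast_iff] at h1
      obtain ⟨w, hw⟩ := h1
      exact ⟨w, by rw [hw]; ring⟩
    obtain ⟨d, M, hd, hdb, hrs, hM, hj⟩ := cls_int a b r s w hr0 hs0 hcop hw'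
    refine ⟨d, hd, hdb, ?_, hj⟩
    rw [fx_x h hx]
    refine ⟨(d * M / s : ℚ), ?_⟩
    have h1 : (r : ℚ) * s = d * M ^ 2 := by exact_mod_cast hrs
    have h2 : x = r / s := by rw [eq_div_iff hsq]; exact hxr
    rw [h2]
    field_simp
    linear_combination (d : ℚ) * h1

end Pool.Agent.L7h56.IS
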