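import Mathlib
import Pool.Agent.L7h19.IS.Stm

/-! Project IS: descent by two-isogenies, part C (the number of classes). -/

set_option autoImplicit false

namespace Pool.Agent.L7h56.IS

open Finset Pool.Agent.L7h19.IS
open scoped symmDiff

lemma prod_pf {m : ℕ} (hm : Squarefree m) : ∏ p ∈ m.primeFactors, p = m :=
  Nat.prod_primeFactors_of_squarefree hm

lemma jac_prod (A : Finset ℕ) (p : ℕ) :
    jacobiSym ((∏ q ∈ A, q : ℕ) : ℤ) p = ∏ q ∈ A, jacobiSym (q : ℤ) p := by
  classical
  induction A using Finset.induction_on with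
  | empty => simp [jacobiSym.one_left]
  | insert a s ha ih =>
    rw [Finset.prod_insert ha, Finset.prod_insert ha, Nat.cast_mul, jacobiSym.mul_left, ih]

/-- the number of sets with given symbols -/
lemma card_fib (m n : ℕ) (hm : Squarefree m) (hmn : ∀ p : ℕ, p.Prime → p ∣ n → ¬ p ∣ m)
    (κ : ℤ) (F : Finset (Finset ℕ)) (hF : ∀ A ∈ F, A ⊆ m.primeFactors)
    (hJ : ∀ A ∈ F, ∀ p ∈ n.primeFactors, jacobiSym (κ * ((∏ q ∈ A, q : ℕ) : ℤ)) p = 1) :
    F.card ≤ N1 m n := by
  classical
  rcases F.eq_empty_or_nonempty with h0 | ⟨B, hB⟩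
  · rw [h0]; simp
  have hm0 : m ≠ 0 := hm.ne_zero
  unfold N1
  have hpr : ∀ A ⊆ m.primeFactors, ∀ q ∈ A, q.Prime := fun A hA q hq =>
    Nat.prime_of_mem_primeFactors (hA hq)
  apply Finset.card_le_card_of_injOn (fun A => ∏ q ∈ (A ∆ B), q)
  · intro A hA
    have hA' := hF A hA
    have hB' := hF B hB
    have hs : A ∆ B ⊆ m.primeFactors := by
      intro q hq
      rcases Finset.mem_symmDiff.mp hq with h | h
      · exact hA' h.1
      · exact hB' h.1
    rw [Finset.mem_coe, Finset.mem_filter]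
    refine ⟨?_, ?_⟩
    · rw [Nat.mem_divisors]
      refine ⟨?_, hm0⟩
      calc ∏ q ∈ A ∆ B, q ∣ ∏ q ∈ m.primeFactors, q := Finset.prod_dvd_prod_of_subset _ _ _ hs
        _ = m := prod_pf hm
    · intro p hp
      have h1 := hJ A hA p hp
      have h2 := hJ B hB p hp
      rw [jacobiSym.mul_left, jac_prod] at h1 h2
      rw [jac_prod]
      have hone : ∀ q ∈ m.primeFactors, jacobiSym (q : ℤ) p * jacobiSym (q : ℤ) p = 1 := by
        intro q hq
        rw [← sq]
        apply jacobiSym.sq_one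
        have hp' := Nat.prime_of_mem_primeFactors hp
        have hq' := Nat.prime_of_mem_primeFactors hq
        rw [Int.gcd_natCast_natCast]
        rw [← Nat.coprime_iff_gcd_eq_one, Nat.coprime_primes hq' hp']
        rintro rfl
        exact hmn q hq' (Nat.dvd_of_mem_primeFactors hp) (Nat.dvd_of_mem_primeFactors hq)
      have e1 : (∏ q ∈ A, jacobiSym (q : ℤ) p) * (∏ q ∈ B, jacobiSym (q : ℤ) p) =
          ∏ q ∈ A ∆ B, jacobiSym (q : ℤ) p := by
        have hA1 : ∏ q ∈ A, jacobiSym (q : ℤ) p =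
            (∏ q ∈ A \ B, jacobiSym (q : ℤ) p) * ∏ q ∈ A ∩ B, jacobiSym (q : ℤ) p := by
          rw [← Finset.prod_union (Finset.disjoint_sdiff_inter A B), Finset.sdiff_union_inter]
        have hB1 : ∏ q ∈ B, jacobiSym (q : ℤ) p =
            (∏ q ∈ B \ A, jacobiSym (q : ℤ) p) * ∏ q ∈ A ∩ B, jacobiSym (q : ℤ) p := by
          rw [Finset.inter_comm A B, ← Finset.prod_union (Finset.disjoint_sdiff_inter B A),
            Finset.sdiff_union_inter]
        have hAB : (∏ q ∈ A ∩ B, jacobiSym (q : ℤ) p) * (∏ q ∈ A ∩ B, jacobiSym (q : ℤ) p) = 1 := by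
          rw [← Finset.prod_mul_distrib]
          exact Finset.prod_eq_one fun q hq => hone q (hA' (Finset.mem_inter.mp hq).1)
        have hS : ∏ q ∈ A ∆ B, jacobiSym (q : ℤ) p =
            (∏ q ∈ A \ B, jacobiSym (q : ℤ) p) * ∏ q ∈ B \ A, jacobiSym (q : ℤ) p := by
          rw [← Finset.prod_union]
          · rfl
          · rw [Finset.disjoint_left]
            intro q h3 h4
            exact (Finset.mem_sdiff.mp h3).2 (Finset.mem_sdiff.mp h4).1
        rw [hA1, hB1, hS]
        linear_combination ((∏ q ∈ A \ B, jacobiSym (q : ℤ) p) *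
          ∏ q ∈ B \ A, jacobiSym (q : ℤ) p) * hAB
      rw [← e1]
      set α := ∏ q ∈ A, jacobiSym (q : ℤ) p
      set β := ∏ q ∈ B, jacobiSym (q : ℤ) p
      set k := jacobiSym κ p
      have hk : IsUnit k := IsUnit.of_mul_eq_one _ h1
      rcases Int.isUnit_iff.mp hk with hk | hk
      · rw [hk, one_mul] at h1 h2; rw [h1, h2]; rfl
      · rw [hk] at h1 h2
        have : α = -1 := by linarith
        have : β = -1 := by linarith
        simp [*]
  · intro A hA A' hA' hh
    have hh' : ∏ q ∈ (A ∆ B), q = ∏ q ∈ (A' ∆ B), q := hh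
    have e : ∀ C ∈ F, (∏ q ∈ (C ∆ B), q).primeFactors = C ∆ B := by
      intro C hC
      apply Nat.primeFactors_prod
      intro q hq
      rcases Finset.mem_symmDiff.mp hq with h | h
      · exact hpr C (hF C hC) q h.1
      · exact hpr B (hF B hB) q h.1
    have h1 : A ∆ B = A' ∆ B := by rw [← e A hA, ← e A' hA', hh']
    exact symmDiff_left_injective B h1

/-- the number of classes -/
lemma exists_S (b : ℤ) (m n : ℕ) (hb : b ≠ 0) (hm : Squarefree m)
    (hmn : ∀ p : ℕ, p.Prime → p ∣ n → ¬ p ∣ m) :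
    ∃ S : Finset ℤ, (∀ d : ℤ, Squarefree d → d ∣ b →
      (∀ p ∈ n.primeFactors, jacobiSym d p = 1) → d ∈ S) ∧
      S.card ≤ 2 ^ ((b.natAbs.primeFactors.filter (fun p => ¬ p ∣ m)).card + 1) * N1 m n := by
  classical
  set W := b.natAbs.primeFactors.filter (fun p => ¬ p ∣ m) with hW
  set I : Finset ℤ := Finset.Icc (-(b.natAbs : ℤ)) b.natAbs with hI
  set S : Finset ℤ := I.filter (fun d => Squarefree d ∧ d ∣ b ∧
      (∀ p ∈ n.primeFactors, jacobiSym d p = 1)) with hS
  refine ⟨S, ?_, ?_⟩
  · intro d h1 h2 h3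
    rw [hS, Finset.mem_filter, hI, Finset.mem_Icc]
    have h4 : d.natAbs ≤ b.natAbs := Nat.le_of_dvd (Int.natAbs_pos.mpr hb) (Int.natAbs_dvd_natAbs.mpr h2)
    refine ⟨⟨?_, ?_⟩, h1, h2, h3⟩ <;> omega
  · -- the map to (sign, primes which do not divide m)
    let f : ℤ → Bool × Finset ℕ := fun d => (decide (0 < d), d.natAbs.primeFactors.filter (fun p => ¬ p ∣ m))
    have himg : S.image f ⊆ (univ : Finset Bool) ×ˢ W.powerset := by
      intro z hz
      obtain ⟨d, hd, rfl⟩ := Finset.mem_image.mp hz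
      obtain ⟨_, h1, h2, h3⟩ := Finset.mem_filter.mp hd
      rw [Finset.mem_product, Finset.mem_powerset]
      refine ⟨Finset.mem_univ _, ?_⟩
      exact Finset.filter_subset_filter _ (Nat.primeFactors_mono (Int.natAbs_dvd_natAbs.mpr h2)
        (Int.natAbs_pos.mpr hb).ne')
    have hcard : (S.image f).card ≤ 2 ^ (W.card + 1) := by
      refine (Finset.card_le_card himg).trans ?_
      rw [Finset.card_product, Finset.card_powerset, Finset.card_univ, Fintype.card_bool, pow_succ]
      omega
    have hfib : ∀ z ∈ S.image f, (S.filter (fun d => f d = z)).card ≤ N1 m n := by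
      rintro ⟨ε, T⟩ hz
      set κ : ℤ := (if ε then 1 else -1) * ((∏ q ∈ T, q : ℕ) : ℤ) with hκ
      -- decomposition
      have hdec : ∀ d ∈ S.filter (fun d => f d = (ε, T)),
          d = κ * ((∏ q ∈ d.natAbs.primeFactors.filter (fun p => p ∣ m), q : ℕ) : ℤ) := by
        intro d hd
        obtain ⟨hd1, hd2⟩ := Finset.mem_filter.mp hd
        obtain ⟨_, h1, h2, h3⟩ := Finset.mem_filter.mp hd1
        have e1 : decide (0 < d) = ε := (Prod.ext_iff.mp hd2).1
        have e2 : d.natAbs.primeFactors.filter (fun p => ¬ p ∣ m) = T := (Prod.ext_iff.mp hd2).2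
        have hsf : Squarefree d.natAbs := Int.squarefree_natAbs.mpr h1
        have e3 : (∏ q ∈ T, q) * (∏ q ∈ d.natAbs.primeFactors.filter (fun p => p ∣ m), q) = d.natAbs := by
          rw [← e2, mul_comm, Finset.prod_filter_mul_prod_filter_not]
          exact prod_pf hsf
        have e4 : d = (if ε then 1 else -1) * (d.natAbs : ℤ) := by
          rw [← e1]
          by_cases h0 : 0 < d
          · simp only [h0, decide_true, if_true]; omega
          · simp only [h0, decide_false, Bool.false_eq_true, if_false]; omega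
        rw [hκ, mul_assoc, ← Nat.cast_mul, e3]
        exact e4
      have hinj : Set.InjOn (fun d : ℤ => d.natAbs.primeFactors.filter (fun p => p ∣ m))
          (S.filter (fun d => f d = (ε, T)) : Finset ℤ) := by
        intro d hd d' hd' hh
        have hh' : d.natAbs.primeFactors.filter (fun p => p ∣ m) =
          d'.natAbs.primeFactors.filter (fun p => p ∣ m) := hh
        rw [hdec d hd, hdec d' hd', hh']
      rw [← Finset.card_image_of_injOn hinj]
      apply card_fib m n hm hmn κ
      · intro A hA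
        obtain ⟨d, hd, rfl⟩ := Finset.mem_image.mp hA
        intro q hq
        obtain ⟨hq1, hq2⟩ := Finset.mem_filter.mp hq
        exact Nat.mem_primeFactors.mpr ⟨Nat.prime_of_mem_primeFactors hq1, hq2, hm.ne_zero⟩
      · intro A hA
        obtain ⟨d, hd, rfl⟩ := Finset.mem_image.mp hA
        intro p hp
        have := hdec d hd
        rw [← this]
        obtain ⟨hd1, _⟩ := Finset.mem_filter.mp hd
        obtain ⟨_, h1, h2, h3⟩ := Finset.mem_filter.mp hd1
        exact h3 p hp
    calc S.card ≤ N1 m n * (S.image f).card := Finset.card_le_mul_card_image S _ hfib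
      _ ≤ N1 m n * 2 ^ (W.card + 1) := Nat.mul_le_mul_left _ hcard
      _ = _ := mul_comm _ _

end Pool.Agent.L7h56.IS
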