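import Mathlib
import Pool.Agent.L7h19.IS.Stm
import Pool.Agent.L7h56.IS.DesB
import Pool.Agent.L7h56.IS.DesC
import Pool.Agent.Q286.EQ.MW

/-! Project IS: descent by two-isogenies, `S_DES`. -/

set_option autoImplicit false

namespace Pool.Agent.L7h56.IS

open WeierstrassCurve WeierstrassCurve.Affine Pool.Agent.V11306.CM Pool.Agent.L7h19.IS

lemma exists_cls' (a b : ℤ) (hb : b ≠ 0) (α β : ℚ) (hα : α = a) (hβ : β = b) (P : (E α β).Point) :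
    ∃ d : ℤ, Squarefree d ∧ d ∣ b ∧ IsSquare ((d : ℚ) * fx α β P) ∧
      ∀ p : ℕ, p.Prime → Odd p → (p : ℤ) ∣ a ^ 2 - 4 * b → ¬ (p : ℤ) ^ 2 ∣ a ^ 2 - 4 * b →
        ¬ (p : ℤ) ∣ b → jacobiSym d p = 1 := by
  subst hα hβ
  exact exists_cls a b hb P

lemma sq_mul_of {d z w : ℚ} (hd : d ≠ 0) (h1 : IsSquare (d * z)) (h2 : IsSquare (d * w)) :
    IsSquare (z * w) := by
  obtain ⟨r, hr⟩ := h1
  obtain ⟨s, hs⟩ := h2
  refine ⟨r * s / d, ?_⟩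
  field_simp
  linear_combination (d * w) * hr + r ^ 2 * hs

theorem s_DES : S_DES := by
  intro a b m n hb hc hm hn hms hns hmp hnp
  classical
  have hbq : (b : ℚ) ≠ 0 := by exact_mod_cast hb
  have hcq : (a : ℚ) ^ 2 - 4 * b ≠ 0 := by exact_mod_cast hc
  have hΔ : (E (a : ℚ) (b : ℚ)).Δ ≠ 0 := by
    rw [E_delta]
    exact mul_ne_zero (mul_ne_zero (by norm_num) (pow_ne_zero 2 hbq)) hcq
  have hΔ1 : (E (-2 * (a : ℚ)) ((a : ℚ) ^ 2 - 4 * b)).Δ ≠ 0 := by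
    rw [E_delta]
    refine mul_ne_zero (mul_ne_zero (by norm_num) (pow_ne_zero 2 hcq)) ?_
    have : (-2 * (a : ℚ)) ^ 2 - 4 * ((a : ℚ) ^ 2 - 4 * b) = 16 * b := by ring
    rw [this]
    exact mul_ne_zero (by norm_num) hbq
  have hΔ2 : (E (-2 * (-2 * (a : ℚ))) ((-2 * (a : ℚ)) ^ 2 - 4 * ((a : ℚ) ^ 2 - 4 * b))).Δ ≠ 0 := by
    rw [E_delta]
    have e1 : (-2 * (a : ℚ)) ^ 2 - 4 * ((a : ℚ) ^ 2 - 4 * b) = 16 * b := by ring
    have e2 : (-2 * (-2 * (a : ℚ))) ^ 2 - 4 * (16 * (b : ℚ)) = 16 * ((a : ℚ) ^ 2 - 4 * b) := by ring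
    rw [e1, e2]
    exact mul_ne_zero (mul_ne_zero (by norm_num) (pow_ne_zero 2 (mul_ne_zero (by norm_num) hbq)))
      (mul_ne_zero (by norm_num) hcq)
  have v1 : (1 : ℚ) ^ 2 ≠ 0 := by norm_num
  have v2 : (1 / 2 : ℚ) ^ 2 ≠ 0 := by norm_num
  have w1 : (-2 * (a : ℚ)) = (1 : ℚ) ^ 2 * (-2 * a) := by ring
  have w2 : ((a : ℚ) ^ 2 - 4 * b) = ((1 : ℚ) ^ 2) ^ 2 * (a ^ 2 - 4 * b) := by ring
  have w3 : (a : ℚ) = (1 / 2 : ℚ) ^ 2 * (-2 * (-2 * a)) := by ring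
  have w4 : (b : ℚ) = ((1 / 2 : ℚ) ^ 2) ^ 2 * ((-2 * a) ^ 2 - 4 * (a ^ 2 - 4 * b)) := by ring
  have h20 : (2 : ℚ) ≠ 0 := two_ne_zero
  have hodd : ∀ (k p : ℕ), Odd k → p ∣ k → Odd p := fun k p hk hp => Odd.of_dvd_nat hk hp
  have hmn : ∀ p : ℕ, p.Prime → p ∣ n → ¬ p ∣ m := fun p hp h1 h2 =>
    (hnp p hp h1).2.2 (hmp p hp h2).1
  obtain ⟨S, hS, hSc⟩ := exists_S b m n hb hms hmn
  obtain ⟨S', hS', hSc'⟩ := exists_S (a ^ 2 - 4 * b) n m hc hns (fun p hp h1 h2 => hmn p hp h2 h1)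
  have H1 := fun P => exists_cls' a b hb (a : ℚ) (b : ℚ) rfl rfl P
  have H2 := fun P => exists_cls' (-2 * a) (a ^ 2 - 4 * b) hc (-2 * (a : ℚ)) ((a : ℚ) ^ 2 - 4 * b)
    (by push_cast; ring) (by push_cast; ring) P
  choose α hα1 hα2 hα3 hα4 using H1
  choose α' hβ1 hβ2 hβ3 hβ4 using H2
  have key := rank_le (E (a : ℚ) (b : ℚ)).Point (E (-2 * (a : ℚ)) ((a : ℚ) ^ 2 - 4 * b)).Point
    (Pool.Agent.Q286.EQ.mordell_weil ℚ (E (a : ℚ) (b : ℚ)) hΔ)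
    (psi (u := 1 / 2) hcq hΔ2 v2 w3 w4 hΔ) (psi (u := 1) hbq hΔ1 v1 w1 w2 hΔ1)
    (psi_psi h20 hbq hcq hΔ hΔ1 hΔ2 v1 v2 w1 w2 w3 w4) S S' α α' ?_ ?_ ?_ ?_
  · exact key.trans (Nat.mul_le_mul hSc hSc')
  · intro P
    refine hS _ (hα1 P) (hα2 P) fun p hp => ?_
    have hp1 := Nat.prime_of_mem_primeFactors hp
    have hp2 := Nat.dvd_of_mem_primeFactors hp
    obtain ⟨h3, h4, h5⟩ := hnp p hp1 hp2
    exact hα4 P p hp1 (hodd n p hn hp2) h3 h4 h5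
  · intro R
    refine hS' _ (hβ1 R) (hβ2 R) fun p hp => ?_
    have hp1 := Nat.prime_of_mem_primeFactors hp
    have hp2 := Nat.dvd_of_mem_primeFactors hp
    obtain ⟨h3, h4, h5⟩ := hmp p hp1 hp2
    have e1 : (-2 * a) ^ 2 - 4 * (a ^ 2 - 4 * b) = 16 * b := by ring
    have hop := hodd m p hm hp2
    refine hβ4 R p hp1 hop ?_ ?_ h5
    · rw [e1]; exact h3.mul_left _
    · rw [e1]
      intro h6
      apply h4
      have hcop : IsCoprime ((p : ℤ) ^ 2) 16 := by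
        have h7 : Nat.Coprime (p ^ 2) 16 := by
          have : Nat.Coprime p 2 := hop.coprime_two_right
          rw [show 16 = 2 ^ 4 by norm_num]
          exact Nat.Coprime.pow 2 4 this
        exact_mod_cast Nat.isCoprime_iff_coprime.mpr h7
      exact hcop.dvd_of_dvd_mul_left h6
  · intro P Q hPQ
    have h1 : IsSquare (fx (a : ℚ) (b : ℚ) P * fx (a : ℚ) (b : ℚ) Q) := by
      apply sq_mul_of (d := (α P : ℚ)) (by exact_mod_cast (hα1 P).ne_zero) (hα3 P)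
      rw [hPQ]
      exact hα3 Q
    obtain ⟨R, hR⟩ := psi_ker hcq hΔ2 v2 w3 w4 hΔ h20 (P - Q) (fx_sub hbq P Q h1)
    exact ⟨R, by rw [hR]; abel⟩
  · intro R R' hRR
    have h1 : IsSquare (fx (-2 * (a : ℚ)) ((a : ℚ) ^ 2 - 4 * b) R *
        fx (-2 * (a : ℚ)) ((a : ℚ) ^ 2 - 4 * b) R') := by
      apply sq_mul_of (d := (α' R : ℚ)) (by exact_mod_cast (hβ1 R).ne_zero) (hβ3 R)
      rw [hRR]
      exact hβ3 R'
    obtain ⟨T, hT⟩ := psi_ker hbq hΔ1 v1 w1 w2 hΔ1 h20 (R - R') (fx_sub hcq R R' h1)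
    exact ⟨T, by rw [hT]; abel⟩

end Pool.Agent.L7h56.IS
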